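import Mathlib
import Pool.Agent.Helper24.GR.Defs
import Pool.Agent.Helper24.GR.Basic

/-!
Project GR: from well-ordered families of generalized cycles to sequences indexed by ordinals.
-/

set_option autoImplicit false

namespace Pool.Agent.Helper24.GR

open Function Order

universe u v

variable {V : Type u} {E : Type v}

/-- GR-1d. From well-ordered families to sequences indexed by ordinals. -/
theorem Reach.reversion {D : Dig V E} {S Ψ : Set E} (h : Reach D S ∅ Ψ) :
    Reversion D (D.flip Ψ) := by
  obtain ⟨ι, hlo, hwf, C, hfin, -, hcyc, rfl⟩ := h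
  -- ranks
  have hwo : IsWellOrder ι (· < ·) := inferInstance
  let rk : ι → Ordinal.{v} := fun j => Ordinal.typein (· < ·) j
  have hrk_lt : ∀ i j, rk i < rk j ↔ i < j := fun i j => Ordinal.typein_lt_typein (· < ·)
  have hrk_le : ∀ i j, rk i ≤ rk j ↔ i ≤ j := fun i j => by
    rw [← not_lt, ← not_lt, hrk_lt]
  set α : Ordinal.{v} := Ordinal.type (fun i j : ι => i < j) with hα
  have hrk_α : ∀ j, rk j < α := fun j => Ordinal.typein_lt_type (· < ·) j
  have hsurj : ∀ ξ < α, ∃ i, rk i = ξ := fun ξ hξ => Ordinal.typein_surj (· < ·) hξ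
  let F : Ordinal.{v} → E → Set ι := fun ξ e => {j | rk j < ξ ∧ e ∈ C j}
  let T : Ordinal.{v} → Set E := fun ξ => {e | Odd (F ξ e).ncard}
  have hFfin : ∀ ξ e, (F ξ e).Finite := fun ξ e => (hfin e).subset fun j hj => hj.2
  refine ⟨α, fun ξ => D.flip (T ξ), ?_, ?_, ?_, ?_⟩
  · have h1 : T 0 = ∅ := by
      ext e
      have h2 : F 0 e = ∅ := by
        ext j
        simp [F]
      simp [T, h2]
    simp only [h1, flip_empty]
  · have h1 : T α = final ∅ C := by
      ext e
      have h2 : F α e = {j | e ∈ C j} := by
        ext j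
        simp only [F, Set.mem_ofPred_eq]
        exact ⟨fun h => h.2, fun h => ⟨hrk_α j, h⟩⟩
      simp only [T, h2, final, Set.mem_ofPred_eq, Set.mem_empty_iff_false]
      simp [Xor]
    simp only [h1]
  · intro ξ hξ
    obtain ⟨i, rfl⟩ := hsurj ξ hξ
    have h1 : T (rk i) = stage ∅ C i := by
      ext e
      have h2 : F (rk i) e = {j | j < i ∧ e ∈ C j} := by
        ext j
        simp only [F, Set.mem_ofPred_eq, hrk_lt]
      simp only [T, h2, stage, Set.mem_ofPred_eq, Set.mem_empty_iff_false]
      simp [Xor]
    refine ⟨C i, ?_, ?_⟩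
    · simp only [h1]
      exact hcyc i
    · simp only
      rw [flip_flip]
      congr 1
      ext e
      have hsucc : ∀ j, rk j < succ (rk i) ↔ j ≤ i := fun j => by
        rw [Order.lt_succ_iff, hrk_le]
      by_cases hei : e ∈ C i
      · have h3 : F (succ (rk i)) e = insert i (F (rk i) e) := by
          ext j
          simp only [F, Set.mem_ofPred_eq, Set.mem_insert_iff, hsucc, hrk_lt]
          constructor
          · rintro ⟨h4, h5⟩
            rcases h4.lt_or_eq with h6 | h6
            · exact Or.inr ⟨h6, h5⟩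
            · exact Or.inl h6
          · rintro (h4 | h4)
            · rw [h4]; exact ⟨le_rfl, hei⟩
            · exact ⟨h4.1.le, h4.2⟩
        have h4 : i ∉ F (rk i) e := fun h => lt_irrefl _ h.1
        have h5 : (F (succ (rk i)) e).ncard = (F (rk i) e).ncard + 1 := by
          rw [h3, Set.ncard_insert_of_notMem h4 (hFfin _ _)]
        simp only [T, Set.mem_ofPred_eq, Set.mem_symmDiff, h5, hei, Nat.odd_add_one]
        tauto
      · have h3 : F (succ (rk i)) e = F (rk i) e := by
          ext j
          simp only [F, Set.mem_ofPred_eq, hsucc, hrk_lt]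
          constructor
          · rintro ⟨h4, h5⟩
            refine ⟨lt_of_le_of_ne h4 ?_, h5⟩
            rintro rfl
            exact hei h5
          · rintro ⟨h4, h5⟩
            exact ⟨h4.le, h5⟩
        simp only [T, Set.mem_ofPred_eq, Set.mem_symmDiff, h3, hei]
        tauto
  · intro l _ hlim e
    -- all the elements of `F l e` have ranks bounded by some `ξ < l`
    have hbd : ∃ ξ < l, ∀ j ∈ F l e, rk j < ξ := by
      rcases (F l e).eq_empty_or_nonempty with hemp | hne
      · refine ⟨0, ?_, fun j hj => ?_⟩
        · rw [pos_iff_ne_zero]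
          rintro rfl
          exact hlim.not_isMin (isMin_iff_forall_not_lt.2 fun x hx => by simp at hx)
        · rw [hemp] at hj; exact absurd hj (Set.notMem_empty j)
      · obtain ⟨j0, hj0, hmax⟩ := (hFfin l e).exists_maximal hne
        refine ⟨succ (rk j0), hlim.succ_lt hj0.1, fun j hj => ?_⟩
        rw [Order.lt_succ_iff, hrk_le]
        by_contra hcon
        push Not at hcon
        exact absurd (hmax hj hcon.le) (not_le.2 hcon)
    obtain ⟨ξ, hξl, hξ⟩ := hbd
    refine ⟨ξ, hξl, fun η h1 h2 => ?_⟩
    have h3 : F η e = F l e := by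
      ext j
      constructor
      · rintro ⟨h4, h5⟩
        exact ⟨h4.trans h2, h5⟩
      · intro h4
        exact ⟨(hξ j h4).trans_le h1, h4.2⟩
    apply flip_congr
    simp only [T, Set.mem_ofPred_eq, h3]

end Pool.Agent.Helper24.GR
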